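import Pool.Agent.Helper1.TE.Goals3

/-! # Packet TE-LVE: the vector operations are linear space functions -/

set_option autoImplicit false

namespace Pool.Agent.Helper86.TE

open Pool.Agent.Helper1.TE
open Pool.Agent.Helper65.LinSpace (dig tab nrec ifz eq01 le01 lt01 capPow Ctx LS nrec_succ)
open Finset

private lemma ctab_le (W q m : ℕ) (d : ℕ → ℕ) : ctab W q m d ≤ W := by
  unfold ctab
  cases m with
  | zero => exact Nat.zero_le _
  | succ m =>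
    rw [nrec_succ]
    exact min_le_right _ _

private lemma dig_le (q X i : ℕ) : dig q X i ≤ X :=
  (Nat.mod_le _ _).trans (Nat.div_le_self _ _)

private lemma vN_eq (c : ℕ → ℕ → ℕ) (m p i : ℕ) :
    vN c m p i = ifz (lt01 i m) (ifz (eq01 i m) 1 (nrm c m p)) (c p i) := by
  unfold vN ifz lt01 eq01
  by_cases h1 : i < m
  · simp [h1]
  · by_cases h2 : i = m
    · simp [h2]
    · simp [h1, h2]

theorem gLVE : GoalLVE := by
  intro hLCT hLSD hLPA
  obtain ⟨hbitc0, hseed0⟩ := hLSD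
  obtain ⟨hs0, hm0, hR0, _, hL0⟩ := hLPA
  have hbitc : ∀ {α : Type} [Ctx α] {f g h k : α → ℕ}, LS f → LS g → LS h → LS k →
      LS (fun a => bitc (f a) (g a) (h a) (k a)) := by
    intro α _ f g h k hf hg hh hk
    exact LS.comp (g := fun x : ℕ × ℕ × ℕ × ℕ => bitc x.1 x.2.1 x.2.2.1 x.2.2.2)
      (f := fun a => (f a, g a, h a, k a)) hbitc0 (by fun_prop)
  have hseed : ∀ {α : Type} [Ctx α] {f g : α → ℕ}, LS f → LS g →
      LS (fun a => seed (f a) (g a)) := by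
    intro α _ f g hf hg
    exact LS.comp (g := fun x : ℕ × ℕ => seed x.1 x.2) (f := fun a => (f a, g a)) hseed0
      (by fun_prop)
  have hsP : ∀ {α : Type} [Ctx α] {f g : α → ℕ}, LS f → LS g →
      LS (fun a => sP (f a) (g a)) := by
    intro α _ f g hf hg
    exact LS.comp (g := fun x : ℕ × ℕ => sP x.1 x.2) (f := fun a => (f a, g a)) hs0
      (by fun_prop)
  have hmP : ∀ {α : Type} [Ctx α] {f g : α → ℕ}, LS f → LS g →
      LS (fun a => mP (f a) (g a)) := by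
    intro α _ f g hf hg
    exact LS.comp (g := fun x : ℕ × ℕ => mP x.1 x.2) (f := fun a => (f a, g a)) hm0
      (by fun_prop)
  have hRP : ∀ {α : Type} [Ctx α] {f g : α → ℕ}, LS f → LS g →
      LS (fun a => RP (f a) (g a)) := by
    intro α _ f g hf hg
    exact LS.comp (g := fun x : ℕ × ℕ => RP x.1 x.2) (f := fun a => (f a, g a)) hR0
      (by fun_prop)
  have hLP : ∀ {α : Type} [Ctx α] {f g h : α → ℕ}, LS f → LS g → LS h →
      LS (fun a => LP (f a) (g a) (h a)) := by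
    intro α _ f g h hf hg hh
    exact LS.comp (g := fun x : ℕ × ℕ × ℕ => LP x.1 x.2.1 x.2.2) (f := fun a => (f a, g a, h a))
      hL0 (by fun_prop)
  have hPM : ∀ {α : Type} [Ctx α] {f g h : α → ℕ}, LS f → LS g → LS h →
      LS (fun a => PM (f a) (g a) (h a)) := by
    intro α _ f g h hf hg hh
    exact LS.add (hLP hf hg hh) (hRP hf hg)
  have hGM : ∀ {α : Type} [Ctx α] {f g h : α → ℕ}, LS f → LS g → LS h →
      LS (fun a => GM (f a) (g a) (h a)) := by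
    intro α _ f g h hf hg hh
    exact LS.succ (LS.div (hPM hf hg hh) (hRP hf hg))
  have hcM : ∀ {α : Type} [Ctx α] {h b W p i : α → ℕ}, LS h → LS b → LS W → LS p → LS i →
      LS (fun a => cM (h a) (b a) (W a) (p a) (i a)) := by
    intro α _ h b W p i hh hb hW hp hi
    have hb' : LS (fun x : α × ℕ => b x.1) := LS.comp hb LS.fst
    have hW' : LS (fun x : α × ℕ => W x.1) := LS.comp hW LS.fst
    have hh' : LS (fun x : α × ℕ => h x.1) := LS.comp hh LS.fst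
    have hp' : LS (fun x : α × ℕ => p x.1) := LS.comp hp LS.fst
    have hi' : LS (fun x : α × ℕ => i x.1) := LS.comp hi LS.fst
    exact hLCT W (fun _ => 2) (fun a => sP (h a) (b a))
      (fun a t => bitc (b a) (seed (b a) (W a)) (p a) (i a * sP (h a) (b a) + t)) hW
      (LS.const 2) (hsP hh hb)
      (hbitc hb' (hseed hb' hW') hp' (LS.add (LS.mul hi' (hsP hh' hb')) LS.snd))
  have hnrm : ∀ {α : Type} [Ctx α] {h b W p : α → ℕ}, LS h → LS b → LS W → LS p →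
      LS (fun a => nrm (cM (h a) (b a) (W a)) (mP (h a) (b a)) (p a)) := by
    intro α _ h b W p hh hb hW hp
    have hb' : LS (fun x : α × ℕ => b x.1) := LS.comp hb LS.fst
    have hW' : LS (fun x : α × ℕ => W x.1) := LS.comp hW LS.fst
    have hh' : LS (fun x : α × ℕ => h x.1) := LS.comp hh LS.fst
    have hp' : LS (fun x : α × ℕ => p x.1) := LS.comp hp LS.fst
    exact LS.sum_le (f := fun a i => cM (h a) (b a) (W a) (p a) i ^ 2)
      (N := fun a => mP (h a) (b a)) (B := fun a => W a ^ 2)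
      (LS.pow_const (hcM hh' hb' hW' hp' LS.snd) 2) (hmP hh hb) (LS.pow_const hW 2)
      (fun a i _ => Nat.pow_le_pow_left (ctab_le _ _ _ _) 2)
  have hvN : ∀ {α : Type} [Ctx α] {h b W p i : α → ℕ}, LS h → LS b → LS W → LS p → LS i →
      LS (fun a => vN (cM (h a) (b a) (W a)) (mP (h a) (b a)) (p a) (i a)) := by
    intro α _ h b W p i hh hb hW hp hi
    exact LS.congr (LS.ifz (LS.lt01 hi (hmP hh hb)) (LS.ifz (LS.eq01 hi (hmP hh hb))
      (LS.const 1) (hnrm hh hb hW hp)) (hcM hh hb hW hp hi)) fun a => vN_eq _ _ _ _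
  have hwM : ∀ {α : Type} [Ctx α] {h b W p X : α → ℕ}, LS h → LS b → LS W → LS p → LS X →
      LS (fun a => wM (h a) (b a) (W a) (p a) (X a)) := by
    intro α _ h b W p X hh hb hW hp hX
    have hb' : LS (fun x : α × ℕ => b x.1) := LS.comp hb LS.fst
    have hW' : LS (fun x : α × ℕ => W x.1) := LS.comp hW LS.fst
    have hh' : LS (fun x : α × ℕ => h x.1) := LS.comp hh LS.fst
    have hp' : LS (fun x : α × ℕ => p x.1) := LS.comp hp LS.fst
    have hX' : LS (fun x : α × ℕ => X x.1) := LS.comp hX LS.fst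
    have hq := hPM hh hb hW
    have hq' := hPM hh' hb' hW'
    have hsum : LS (fun a => ∑ i ∈ range (mP (h a) (b a)), 2 * cM (h a) (b a) (W a) (p a) i *
        dig (PM (h a) (b a) (W a)) (X a) i) :=
      LS.sum_le (f := fun a i => 2 * cM (h a) (b a) (W a) (p a) i *
          dig (PM (h a) (b a) (W a)) (X a) i)
        (N := fun a => mP (h a) (b a)) (B := fun a => 2 * W a * X a)
        (LS.mul (LS.mul (LS.const 2) (hcM hh' hb' hW' hp' LS.snd)) (LS.dig hq' hX' LS.snd))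
        (hmP hh hb) (LS.mul (LS.mul (LS.const 2) hW) hX)
        (fun a i _ => Nat.mul_le_mul (Nat.mul_le_mul_left _ (ctab_le _ _ _ _)) (dig_le _ _ _))
    exact LS.mod (LS.add (LS.add hsum (LS.mul (LS.pred hq) (LS.dig hq hX (hmP hh hb))))
      (LS.mul (LS.sub (hLP hh hb hW) (hnrm hh hb hW hp))
        (LS.dig hq hX (LS.succ (hmP hh hb))))) hq
  have h1 : LS (fun x : (ℕ × ℕ × ℕ) × ℕ × ℕ => x.1.1) := by fun_prop
  have h2 : LS (fun x : (ℕ × ℕ × ℕ) × ℕ × ℕ => x.1.2.1) := by fun_prop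
  have h3 : LS (fun x : (ℕ × ℕ × ℕ) × ℕ × ℕ => x.1.2.2) := by fun_prop
  have h4 : LS (fun x : (ℕ × ℕ × ℕ) × ℕ × ℕ => x.2.1) := by fun_prop
  have h5 : LS (fun x : (ℕ × ℕ × ℕ) × ℕ × ℕ => x.2.2) := by fun_prop
  have k1 : LS (fun x : ((ℕ × ℕ × ℕ) × ℕ × ℕ) × ℕ => x.1.1.1) := by fun_prop
  have k2 : LS (fun x : ((ℕ × ℕ × ℕ) × ℕ × ℕ) × ℕ => x.1.1.2.1) := by fun_prop
  have k3 : LS (fun x : ((ℕ × ℕ × ℕ) × ℕ × ℕ) × ℕ => x.1.1.2.2) := by fun_prop
  have k4 : LS (fun x : ((ℕ × ℕ × ℕ) × ℕ × ℕ) × ℕ => x.1.2.1) := by fun_prop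
  have k5 : LS (fun x : ((ℕ × ℕ × ℕ) × ℕ × ℕ) × ℕ => x.1.2.2) := by fun_prop
  have k6 : LS (fun x : ((ℕ × ℕ × ℕ) × ℕ × ℕ) × ℕ => x.2) := by fun_prop
  have hq := hPM h1 h2 h3
  have hq' := hPM k1 k2 k3
  have hm2 := LS.add (hmP h1 h2) (LS.const 2)
  refine ⟨?_, ?_, hwM h1 h2 h3 h4 h5, ?_, ?_, ?_⟩
  · exact hPM (f := fun x : ℕ × ℕ × ℕ => x.1) (g := fun x => x.2.1) (h := fun x => x.2.2)
      (by fun_prop) (by fun_prop) (by fun_prop)
  · exact hGM (f := fun x : ℕ × ℕ × ℕ => x.1) (g := fun x => x.2.1) (h := fun x => x.2.2)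
      (by fun_prop) (by fun_prop) (by fun_prop)
  · exact hLCT (fun x : (ℕ × ℕ × ℕ) × ℕ × ℕ => x.1.2.2) (fun x => PM x.1.1 x.1.2.1 x.1.2.2)
      (fun x => mP x.1.1 x.1.2.1 + 2)
      (fun x i => (dig (PM x.1.1 x.1.2.1 x.1.2.2) x.2.2 i +
        vN (cM x.1.1 x.1.2.1 x.1.2.2) (mP x.1.1 x.1.2.1) x.2.1 i) % PM x.1.1 x.1.2.1 x.1.2.2)
      h3 hq hm2
      (LS.mod (LS.add (LS.dig hq' k5 k6) (hvN k1 k2 k3 k4 k6)) hq')
  · exact hLCT (fun x : (ℕ × ℕ × ℕ) × ℕ × ℕ => x.1.2.2) (fun x => PM x.1.1 x.1.2.1 x.1.2.2)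
      (fun x => mP x.1.1 x.1.2.1 + 2)
      (fun x i => (dig (PM x.1.1 x.1.2.1 x.1.2.2) x.2.2 i + (PM x.1.1 x.1.2.1 x.1.2.2 -
        vN (cM x.1.1 x.1.2.1 x.1.2.2) (mP x.1.1 x.1.2.1) x.2.1 i)) % PM x.1.1 x.1.2.1 x.1.2.2)
      h3 hq hm2
      (LS.mod (LS.add (LS.dig hq' k5 k6) (LS.sub hq' (hvN k1 k2 k3 k4 k6))) hq')
  · exact hLCT (fun x : (ℕ × ℕ × ℕ) × ℕ × ℕ => x.1.2.2) (fun x => PM x.1.1 x.1.2.1 x.1.2.2)
      (fun x => mP x.1.1 x.1.2.1 + 2)
      (fun x i => ifz (eq01 i (mP x.1.1 x.1.2.1)) (dig (PM x.1.1 x.1.2.1 x.1.2.2) x.2.1 i)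
        ((dig (PM x.1.1 x.1.2.1 x.1.2.2) x.2.1 (mP x.1.1 x.1.2.1) + x.2.2) %
          PM x.1.1 x.1.2.1 x.1.2.2))
      h3 hq hm2
      (LS.ifz (LS.eq01 k6 (hmP k1 k2)) (LS.dig hq' k4 k6)
        (LS.mod (LS.add (LS.dig hq' k4 (hmP k1 k2)) k5) hq'))

end Pool.Agent.Helper86.TE
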