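import Pool.Agent.Helper1.TE.Goals

/-! # Packet TE-ALB: bounds along chains -/

set_option autoImplicit false

namespace Pool.Agent.Helper86.TE

open Pool.Agent.Helper1.TE

variable {Z : Type}

private lemma ch_congr {S : Type} {step step' : ℕ → ℕ → ℕ → S → Option S} {K t : ℕ} {x y : S}
    (hs : ∀ τ < t, ∀ a b s, step τ a b s = step' τ a b s) (h : Ch step K t x y) :
    Ch step' K t x y := by
  induction h with
  | zero s => exact Ch.zero s
  | @succ t s s' s'' a b ha hb h h' ih =>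
    exact Ch.succ a b ha hb (ih fun τ hτ => hs τ (by omega)) (by rw [← hs t (by omega)]; exact h')

private lemma app_bd (g : Gad Z) (hg : g.OK) (tst : ℕ → ℕ) (T v : ℕ) (z z' : Z) (B : ℕ)
    (hv : v < g.K) (hz : g.V z) (hB : g.st z < B) (h : app g tst T v z = some z') :
    g.V z' ∧ g.st z' < B * g.G := by
  have h1 := hg.one_le
  have hBG : B ≤ B * g.G := Nat.le_mul_of_pos_right B h1
  unfold app at h
  split_ifs at h with h0 h2 h3
  · cases h
    exact ⟨hz, by omega⟩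
  · cases h
    refine ⟨hg.hd_V _ hv _ hz, ?_⟩
    have h4 := hg.st_hd v hv z hz
    have h5 : g.G * (g.st z + 1) ≤ g.G * B := Nat.mul_le_mul_left _ hB
    rw [mul_comm B]
    omega
  · refine ⟨hg.un_V _ hv _ _ hz h, ?_⟩
    have := hg.st_un _ _ _ h
    omega

private def blk (g : Gad Z) (tst : ℕ → ℕ) (leaf : ℕ → ℕ) (f : ℕ → ℕ → ℕ → ℕ) (h j T : ℕ)
    (i : Fin 3) (r : ℕ) : ℕ → ℕ → ℕ → (Fin 3 → Z) → Option (Fin 3 → Z) := fun τ a b C =>
  if r = 0 then opR g tst leaf f h (2 * j) 1 (i + 1) τ a b C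
  else if r = 1 then opR g tst leaf f h (2 * j + 1) 1 (i + 2) τ a b C
  else if r = 2 then (if τ = 0 then guess g tst (f j) T i a b C else some C)
  else if r = 3 then opR g tst leaf f h (2 * j) 2 (i + 1) τ a b C
  else opR g tst leaf f h (2 * j + 1) 2 (i + 2) τ a b C

private lemma opR_blk (g : Gad Z) (tst : ℕ → ℕ) (leaf : ℕ → ℕ) (f : ℕ → ℕ → ℕ → ℕ) (h j T : ℕ)
    (i : Fin 3) (r τ a b : ℕ) (C : Fin 3 → Z) (hτ : τ < 5 ^ h) :
    opR g tst leaf f (h + 1) j T i (r * 5 ^ h + τ) a b C = blk g tst leaf f h j T i r τ a b C := by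
  have hn : 0 < 5 ^ h := by positivity
  have h1 : (r * 5 ^ h + τ) / 5 ^ h = r := by
    rw [mul_comm, Nat.mul_add_div hn, Nat.div_eq_of_lt hτ, add_zero]
  have h2 : (r * 5 ^ h + τ) % 5 ^ h = τ := by
    rw [mul_comm, Nat.mul_add_mod, Nat.mod_eq_of_lt hτ]
  rw [opR, h1, h2]
  rfl

private lemma ch_blk (g : Gad Z) (tst : ℕ → ℕ) (leaf : ℕ → ℕ) (f : ℕ → ℕ → ℕ → ℕ) (h j T : ℕ)
    (i : Fin 3) (r t : ℕ) (C C' : Fin 3 → Z) (ht : t ≤ 5 ^ h)
    (hc : Ch (fun τ => opR g tst leaf f (h + 1) j T i (r * 5 ^ h + τ)) g.K t C C') :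
    Ch (blk g tst leaf f h j T i r) g.K t C C' :=
  ch_congr (fun τ hτ a b s => opR_blk g tst leaf f h j T i r τ a b s (by omega)) hc

private lemma ch_two (g : Gad Z) (tst : ℕ → ℕ) (leaf : ℕ → ℕ) (f : ℕ → ℕ → ℕ → ℕ) (h j T : ℕ)
    (i : Fin 3) (t : ℕ) (C C' : Fin 3 → Z) (hc : Ch (blk g tst leaf f h j T i 2) g.K t C C') :
    (t = 0 ∧ C' = C) ∨ (0 < t ∧ ∃ a < g.K, ∃ b < g.K, guess g tst (f j) T i a b C = some C') := by
  induction hc with
  | zero s => exact Or.inl ⟨rfl, rfl⟩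
  | @succ t s s' s'' a b ha hb h h' ih =>
    right
    refine ⟨Nat.succ_pos t, ?_⟩
    rcases ih with ⟨h1, h2⟩ | ⟨h1, a', ha', b', hb', h2⟩
    · subst h1 h2
      refine ⟨a, ha, b, hb, ?_⟩
      simpa [blk] using h'
    · have h3 : s'' = s' := by
        have h4 : t ≠ 0 := by omega
        simp [blk, h4] at h'
        exact h'.symm
      subst h3
      exact ⟨a', ha', b', hb', h2⟩

private lemma ch0 {S : Type} {step : ℕ → ℕ → ℕ → S → Option S} {K : ℕ} {x y : S}
    (h : Ch step K 0 x y) : y = x := by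
  cases h
  rfl

private lemma cov : ∀ i k : Fin 3, k = i ∨ k = i + 1 ∨ k = i + 2 := by decide
private lemma ne1 : ∀ i : Fin 3, i ≠ i + 1 := by decide
private lemma ne2 : ∀ i : Fin 3, i ≠ i + 2 := by decide
private lemma ne3 : ∀ i : Fin 3, i + 1 ≠ i + 2 := by decide

/-- all contents are valid and bounded by `B` -/
private def Q (g : Gad Z) (C : Fin 3 → Z) (B : ℕ) : Prop := ∀ k, g.V (C k) ∧ g.st (C k) < B

private lemma nval_lt (K : ℕ) (leaf : ℕ → ℕ) (f : ℕ → ℕ → ℕ → ℕ) (hl : ∀ j, leaf j < K)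
    (hf : ∀ j a b, f j a b < K) (h j : ℕ) : nval leaf f h j < K := by
  cases h with
  | zero => exact hl j
  | succ h => exact hf _ _ _

theorem gALB : GoalALB := by
  intro hCHS hALG Z g hg tst leaf f hl hf h
  have h1G := hg.one_le
  induction h with
  | zero =>
    intro j T i C C' t B ht hV hst hc k
    have hBG : B ≤ B * g.G := Nat.le_mul_of_pos_right B h1G
    rw [zero_add, pow_one]
    rw [pow_zero] at ht
    rcases Nat.eq_zero_or_pos t with h0 | h0
    · subst h0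
      rw [ch0 hc]
      exact ⟨hV k, by have := hst k; omega⟩
    · obtain rfl : t = 1 := by omega
      cases hc with
      | succ a b ha hb h1 h2 =>
        rw [ch0 h1] at h2
        rw [opR] at h2
        obtain ⟨z, hz, hz'⟩ := Option.map_eq_some_iff.1 h2
        rw [← hz']
        rcases eq_or_ne k i with hk | hk
        · rw [hk, Function.update_self]
          exact app_bd g hg tst T _ _ _ B (hl j) (hV i) (hst i) hz
        · rw [Function.update_of_ne hk]
          exact ⟨hV k, by have := hst k; omega⟩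
  | succ h ih =>
    intro j T i C C' t B ht hV hst hc
    have hn : 0 < 5 ^ h := by positivity
    have hBG : B ≤ B * g.G := Nat.le_mul_of_pos_right B h1G
    have hGh : 1 ≤ g.G ^ (h + 1) := Nat.one_le_pow _ _ h1G
    have hBGG : B * g.G ≤ B * g.G ^ (h + 1 + 1) := by
      rw [pow_succ', ← mul_assoc]
      exact Nat.le_mul_of_pos_right _ hGh
    have hnv : ∀ j, nval leaf f h j < g.K := nval_lt g.K leaf f hl hf h
    -- incomplete visit
    have inc : ∀ (j' T' : ℕ) (i' : Fin 3) (X Y : Fin 3 → Z) (t' : ℕ), t' ≤ 5 ^ h →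
        Q g X (B * g.G) → Ch (opR g tst leaf f h j' T' i') g.K t' X Y →
        Q g Y (B * g.G ^ (h + 1 + 1)) := by
      intro j' T' i' X Y t' ht' hX hch k
      have h1 := ih j' T' i' X Y t' (B * g.G) ht' (fun k => (hX k).1) (fun k => (hX k).2) hch k
      refine ⟨h1.1, ?_⟩
      have h2 := h1.2
      rw [mul_assoc, ← pow_succ'] at h2
      exact h2
    -- complete visit with T = 1
    have v1 : ∀ (j' : ℕ) (i' : Fin 3) (X Y : Fin 3 → Z), (∀ k, g.V (X k)) →
        g.st (X i') < B → Ch (opR g tst leaf f h j' 1 i') g.K (5 ^ h) X Y →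
        (g.V (Y i') ∧ g.st (Y i') < B * g.G) ∧ ∀ k, k ≠ i' → Y k = X k := by
      intro j' i' X Y hX hs hch
      obtain ⟨z, hz, hY⟩ := (hALG hCHS g hg tst leaf f hl hf h j' 1 i' X Y hX).1 hch
      rw [hY]
      refine ⟨?_, fun k hk => Function.update_of_ne hk _ _⟩
      rw [Function.update_self]
      exact app_bd g hg tst 1 _ _ _ B (hnv j') (hX i') hs hz
    -- complete visit with T = 2
    have v2 : ∀ (j' : ℕ) (i' : Fin 3) (X Y : Fin 3 → Z) (B' : ℕ), Q g X B' →
        Ch (opR g tst leaf f h j' 2 i') g.K (5 ^ h) X Y → Q g Y B' := by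
      intro j' i' X Y B' hX hch k
      obtain ⟨z, hz, hY⟩ := (hALG hCHS g hg tst leaf f hl hf h j' 2 i' X Y
        (fun k => (hX k).1)).1 hch
      rw [hY]
      rcases eq_or_ne k i' with hk | hk
      · rw [hk, Function.update_self]
        have hz' : g.un (nval leaf f h j') (X i') = some z := by
          simpa [app] using hz
        exact ⟨hg.un_V _ (hnv j') _ _ (hX i').1 hz',
          lt_of_le_of_lt (hg.st_un _ _ _ hz') (hX i').2⟩
      · rw [Function.update_of_ne hk]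
        exact hX k
    -- guess
    have gs : ∀ (X Y : Fin 3 → Z) (a b : ℕ), a < g.K → b < g.K → (∀ k, g.V (X k)) →
        g.st (X i) < B → g.st (X (i + 1)) < B * g.G → g.st (X (i + 2)) < B * g.G →
        guess g tst (f j) T i a b X = some Y → Q g Y (B * g.G) := by
      intro X Y a b ha hb hX s0 s1 s2 hgu k
      unfold guess at hgu
      obtain ⟨z, hz, hY⟩ := Option.map_eq_some_iff.1 hgu
      rw [← hY]
      have hz' := app_bd g hg tst T _ _ _ B (hf j a b) (hX i) s0 hz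
      rcases cov i k with hk | hk | hk
      · rw [hk, Function.update_of_ne (ne2 i), Function.update_of_ne (ne1 i),
          Function.update_self]
        exact hz'
      · rw [hk, Function.update_of_ne (ne3 i), Function.update_self]
        exact ⟨hg.sh_V _ ha _ (hX _), by rw [hg.st_sh]; exact s1⟩
      · rw [hk, Function.update_self]
        exact ⟨hg.sh_V _ hb _ (hX _), by rw [hg.st_sh]; exact s2⟩
    set st := opR g tst leaf f (h + 1) j T i with hstd
    -- splitting after a complete number of blocks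
    have spl : ∀ (r t' : ℕ) (Y : Fin 3 → Z), t' ≤ 5 ^ h → Ch st g.K (r * 5 ^ h + t') C Y →
        ∃ X, Ch st g.K (r * 5 ^ h) C X ∧ Ch (blk g tst leaf f h j T i r) g.K t' X Y := by
      intro r t' Y ht' hch
      obtain ⟨X, h1, h2⟩ := (hCHS st g.K (r * 5 ^ h) t' C Y).1 hch
      exact ⟨X, h1, ch_blk g tst leaf f h j T i r t' X Y ht' h2⟩
    have q0 : ∀ X, Ch st g.K (0 * 5 ^ h) C X → X = C := by
      intro X hX
      rw [zero_mul] at hX
      exact ch0 hX
    have q1 : ∀ X, Ch st g.K (1 * 5 ^ h) C X → (∀ k, g.V (X k)) ∧ g.st (X i) < B ∧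
        g.st (X (i + 1)) < B * g.G ∧ g.st (X (i + 2)) < B := by
      intro X hX
      obtain ⟨Y, h1, h2⟩ := spl 0 (5 ^ h) X le_rfl (by rwa [zero_mul, zero_add, ← one_mul (5 ^ h)])
      rw [q0 Y h1] at h2
      have h3 : Ch (opR g tst leaf f h (2 * j) 1 (i + 1)) g.K (5 ^ h) C X := h2
      obtain ⟨h4, h5⟩ := v1 _ _ _ _ hV (hst _) h3
      refine ⟨?_, ?_, h4.2, ?_⟩
      · intro k
        rcases eq_or_ne k (i + 1) with hk | hk
        · rw [hk]; exact h4.1
        · rw [h5 k hk]; exact hV k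
      · rw [h5 i (ne1 i)]; exact hst i
      · rw [h5 (i + 2) (ne3 i).symm]; exact hst _
    have q2 : ∀ X, Ch st g.K (2 * 5 ^ h) C X → (∀ k, g.V (X k)) ∧ g.st (X i) < B ∧
        g.st (X (i + 1)) < B * g.G ∧ g.st (X (i + 2)) < B * g.G := by
      intro X hX
      have e : 2 * 5 ^ h = 1 * 5 ^ h + 5 ^ h := by ring
      obtain ⟨Y, h1, h2⟩ := spl 1 (5 ^ h) X le_rfl (by rw [← e]; exact hX)
      obtain ⟨a1, a2, a3, a4⟩ := q1 Y h1
      have h3 : Ch (opR g tst leaf f h (2 * j + 1) 1 (i + 2)) g.K (5 ^ h) Y X := h2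
      obtain ⟨h4, h5⟩ := v1 _ _ _ _ a1 a4 h3
      refine ⟨?_, ?_, ?_, h4.2⟩
      · intro k
        rcases eq_or_ne k (i + 2) with hk | hk
        · rw [hk]; exact h4.1
        · rw [h5 k hk]; exact a1 k
      · rw [h5 i (ne2 i)]; exact a2
      · rw [h5 (i + 1) (ne3 i)]; exact a3
    have q3 : ∀ X, Ch st g.K (3 * 5 ^ h) C X → Q g X (B * g.G) := by
      intro X hX
      have e : 3 * 5 ^ h = 2 * 5 ^ h + 5 ^ h := by ring
      obtain ⟨Y, h1, h2⟩ := spl 2 (5 ^ h) X le_rfl (by rw [← e]; exact hX)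
      obtain ⟨a1, a2, a3, a4⟩ := q2 Y h1
      rcases ch_two g tst leaf f h j T i _ _ _ h2 with ⟨h3, _⟩ | ⟨_, a, ha, b, hb, h3⟩
      · omega
      · exact gs Y X a b ha hb a1 a2 a3 a4 h3
    have q4 : ∀ X, Ch st g.K (4 * 5 ^ h) C X → Q g X (B * g.G) := by
      intro X hX
      have e : 4 * 5 ^ h = 3 * 5 ^ h + 5 ^ h := by ring
      obtain ⟨Y, h1, h2⟩ := spl 3 (5 ^ h) X le_rfl (by rw [← e]; exact hX)
      have h3 : Ch (opR g tst leaf f h (2 * j) 2 (i + 1)) g.K (5 ^ h) Y X := h2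
      exact v2 _ _ _ _ _ (q3 Y h1) h3
    have hr : ∃ r t', r ≤ 4 ∧ t' ≤ 5 ^ h ∧ t = r * 5 ^ h + t' := by
      rw [pow_succ] at ht
      by_cases c1 : t ≤ 5 ^ h
      · exact ⟨0, t, by omega, c1, by omega⟩
      by_cases c2 : t ≤ 2 * 5 ^ h
      · exact ⟨1, t - 5 ^ h, by omega, by omega, by omega⟩
      by_cases c3 : t ≤ 3 * 5 ^ h
      · exact ⟨2, t - 2 * 5 ^ h, by omega, by omega, by omega⟩
      by_cases c4 : t ≤ 4 * 5 ^ h
      · exact ⟨3, t - 3 * 5 ^ h, by omega, by omega, by omega⟩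
      · exact ⟨4, t - 4 * 5 ^ h, by omega, by omega, by omega⟩
    obtain ⟨r, t', hr4, ht', rfl⟩ := hr
    obtain ⟨X, h1, h2⟩ := spl r t' C' ht' hc
    have hQ : Q g C' (B * g.G ^ (h + 1 + 1)) := by
      interval_cases r
      · rw [q0 X h1] at h2
        have h3 : Ch (opR g tst leaf f h (2 * j) 1 (i + 1)) g.K t' C C' := h2
        exact inc _ _ _ _ _ _ ht' (fun k => ⟨hV k, by have := hst k; omega⟩) h3
      · obtain ⟨a1, a2, a3, a4⟩ := q1 X h1
        have h3 : Ch (opR g tst leaf f h (2 * j + 1) 1 (i + 2)) g.K t' X C' := h2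
        refine inc _ _ _ _ _ _ ht' (fun k => ⟨a1 k, ?_⟩) h3
        rcases cov i k with hk | hk | hk
        · rw [hk]; omega
        · rw [hk]; exact a3
        · rw [hk]; omega
      · obtain ⟨a1, a2, a3, a4⟩ := q2 X h1
        have hw : ∀ Y, Q g Y (B * g.G) → Q g Y (B * g.G ^ (h + 1 + 1)) :=
          fun Y hY k => ⟨(hY k).1, lt_of_lt_of_le (hY k).2 hBGG⟩
        rcases ch_two g tst leaf f h j T i _ _ _ h2 with ⟨_, h3⟩ | ⟨_, a, ha, b, hb, h3⟩
        · rw [h3]
          refine hw _ fun k => ⟨a1 k, ?_⟩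
          rcases cov i k with hk | hk | hk
          · rw [hk]; omega
          · rw [hk]; exact a3
          · rw [hk]; exact a4
        · exact hw _ (gs X C' a b ha hb a1 a2 a3 a4 h3)
      · have h3 : Ch (opR g tst leaf f h (2 * j) 2 (i + 1)) g.K t' X C' := h2
        exact inc _ _ _ _ _ _ ht' (q3 X h1) h3
      · have h3 : Ch (opR g tst leaf f h (2 * j + 1) 2 (i + 2)) g.K t' X C' := h2
        exact inc _ _ _ _ _ _ ht' (q4 X h1) h3
    exact hQ

end Pool.Agent.Helper86.TE
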